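import Pool.Agent.W443.DX.Base

/-!
Statements for the transfer from the plane Jacobian conjecture to Dixmier's conjecture for the
first Weyl algebra (reduction modulo p), see the subtasks DX-*.
-/

set_option autoImplicit false

open MvPolynomial

namespace Pool.Agent.W443.DX

/-- `X i ^ B * X (1 - i) ^ C` is the leading monomial of `F` for the lexicographic order for which
`X i` is the larger variable. -/
def LM {R : Type} [CommRing R] (i : Fin 2) (F : MvPolynomial (Fin 2) R) (B C : ℕ) : Prop :=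
  coeff (Finsupp.single i B + Finsupp.single (1 - i) C) F ≠ 0 ∧
    ∀ m, coeff m F ≠ 0 → m i < B ∨ (m i = B ∧ m (1 - i) ≤ C)

/-- The Jacobian determinant. -/
noncomputable def Jac {R : Type} [CommRing R] (f g : MvPolynomial (Fin 2) R) :
    MvPolynomial (Fin 2) R :=
  pderiv 0 f * pderiv 1 g - pderiv 1 f * pderiv 0 g

/-- `(f, g)` and `(G₁, G₂)` are mutually inverse polynomial maps. -/
def Inv {R : Type} [CommRing R] (f g G₁ G₂ : MvPolynomial (Fin 2) R) : Prop :=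
  aeval ![f, g] G₁ = X 0 ∧ aeval ![f, g] G₂ = X 1 ∧ aeval ![G₁, G₂] f = X 0 ∧
    aeval ![G₁, G₂] g = X 1

/-! ### A. leading monomials -/

/-- DX-OPM: the normally ordered product differs from the commutative one by lower terms. -/
def S_OPM : Prop := ∀ (R : Type) [CommRing R] (F G : MvPolynomial (Fin 2) R) (m : Fin 2 →₀ ℕ),
  coeff m (op R F G - F * G) ≠ 0 → ∃ m₁ ∈ F.support, ∃ m₂ ∈ G.support, ∃ r : ℕ, 1 ≤ r ∧
    m 0 + r = m₁ 0 + m₂ 0 ∧ m 1 + r = m₁ 1 + m₂ 1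

/-- DX-LMM: leading monomials are multiplicative. -/
def S_LMM : Prop := ∀ (R : Type) [CommRing R] [IsDomain R] (i : Fin 2)
  (F G : MvPolynomial (Fin 2) R) (B C B' C' : ℕ), LM i F B C → LM i G B' C' →
    LM i (op R F G) (B + B') (C + C')

/-- DX-LME: existence and uniqueness of leading monomials, and the first exponent is the degree. -/
def S_LME : Prop := ∀ (R : Type) [CommRing R] (i : Fin 2) (F : MvPolynomial (Fin 2) R),
  (F ≠ 0 → ∃ B C, LM i F B C) ∧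
  (∀ B C, LM i F B C → B = degreeOf i F ∧ ∀ B' C', LM i F B' C' → B' = B ∧ C' = C)

/-- DX-NZD: no zero divisors. -/
def S_NZD : Prop := ∀ (R : Type) [CommRing R] [IsDomain R] (a b : W R), a * b = 0 → a = 0 ∨ b = 0

/-! ### B. characteristic p -/

/-- DX-DER: multiplication by the generators from the right. -/
def S_DER : Prop := ∀ (R : Type) [CommRing R] (F : MvPolynomial (Fin 2) R),
  nf R F * wx R = nf R (X 0 * F - pderiv 1 F) ∧ nf R F * wy R = nf R (X 1 * F)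

/-- DX-CEN: polynomials in `X ^ p, Y ^ p` are central, product = commutative product. -/
def S_CEN : Prop := ∀ (p : ℕ) [Fact p.Prime] (R : Type) [CommRing R] [CharP R p]
  (H F : MvPolynomial (Fin 2) R), nf R (expand p H) * nf R F = nf R (expand p H * F) ∧
    nf R F * nf R (expand p H) = nf R (expand p H * F)

/-- DX-CTR: the centre. -/
def S_CTR : Prop := ∀ (p : ℕ) [Fact p.Prime] (k : Type) [Field k] [CharP k p] (a : W k),
  wx k * a = a * wx k → wy k * a = a * wy k → ∃ H, a = nf k (expand p H)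

/-- DX-POW: `p`-th powers commute with both generators of a Weyl pair. -/
def S_POW : Prop := ∀ (p : ℕ) (A : Type) [Ring A] (P Q : A), (p : A) = 0 → P * Q - Q * P = 1 →
  P ^ p * Q = Q * P ^ p ∧ P * Q ^ p = Q ^ p * P

/-- DX-IND: independence of the monomials over the centralizer. -/
def S_IND : Prop := ∀ (p : ℕ) [Fact p.Prime] (A : Type) [Ring A] (P Q : A), (p : A) = 0 →
  P * Q - Q * P = 1 → ∀ c : ℕ → ℕ → A, (∀ i j, P * c i j = c i j * P) →
    (∀ i j, Q * c i j = c i j * Q) →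
    (∑ i ∈ Finset.range p, ∑ j ∈ Finset.range p, c i j * (P ^ i * Q ^ j)) = 0 →
    ∀ i < p, ∀ j < p, c i j = 0

/-- DX-NIL: if `P ^ p` and `Q ^ p` are central then the monomials span over the centralizer. -/
def S_NIL : Prop := ∀ (p : ℕ) [Fact p.Prime] (A : Type) [Ring A] (P Q : A), (p : A) = 0 →
  P * Q - Q * P = 1 → (∀ a, P ^ p * a = a * P ^ p) → (∀ a, Q ^ p * a = a * Q ^ p) →
  ∀ a : A, ∃ c : ℕ → ℕ → A, (∀ i j, P * c i j = c i j * P) ∧ (∀ i j, Q * c i j = c i j * Q) ∧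
    a = ∑ i ∈ Finset.range p, ∑ j ∈ Finset.range p, c i j * (P ^ i * Q ^ j)

/-- DX-RNK: `k[X, Y]` has rank `p ^ 2` over `k[X ^ p, Y ^ p]`. -/
def S_RNK : Prop := ∀ (p : ℕ) [Fact p.Prime] (k : Type) [Field k]
  (v : Fin (p ^ 2 + 1) → MvPolynomial (Fin 2) k),
  ∃ H : Fin (p ^ 2 + 1) → MvPolynomial (Fin 2) k, H ≠ 0 ∧ ∑ l, expand p (H l) * v l = 0

/-- DX-CZR: the centralizer of a Weyl pair is the centre. -/
def S_CZR : Prop := ∀ (p : ℕ) [Fact p.Prime] (k : Type) [Field k] [CharP k p] (P Q a : W k),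
  P * Q - Q * P = 1 → P * a = a * P → Q * a = a * Q → ∃ H, a = nf k (expand p H)

/-- DX-SPN: the monomials in a Weyl pair span over the centre. -/
def S_SPN : Prop := ∀ (p : ℕ) [Fact p.Prime] (k : Type) [Field k] [CharP k p] (P Q a : W k),
  P * Q - Q * P = 1 → ∃ H : ℕ → ℕ → MvPolynomial (Fin 2) k,
    a = ∑ i ∈ Finset.range p, ∑ j ∈ Finset.range p, nf k (expand p (H i j)) * (P ^ i * Q ^ j)

/-! ### C. the Jacobian of the map of the centres -/

/-- DX-PQP. -/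
def S_PQP : Prop := ∀ (p : ℕ) [Fact p.Prime] (A : Type) [Ring A] (P Q : A),
  ((p ^ 2 : ℕ) : A) = 0 → P * Q - Q * P = 1 → P ^ p * Q ^ p - Q ^ p * P ^ p = -(p : A)

/-- DX-BRK: the commutator of polynomials in `x ^ p, y ^ p` modulo `p ^ 2`. -/
def S_BRK : Prop := ∀ (p : ℕ) [Fact p.Prime] (f g : MvPolynomial (Fin 2) (ZMod (p ^ 2))),
  ev (wx (ZMod (p ^ 2)) ^ p) (wy (ZMod (p ^ 2)) ^ p) f *
      ev (wx (ZMod (p ^ 2)) ^ p) (wy (ZMod (p ^ 2)) ^ p) g -
    ev (wx (ZMod (p ^ 2)) ^ p) (wy (ZMod (p ^ 2)) ^ p) g *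
      ev (wx (ZMod (p ^ 2)) ^ p) (wy (ZMod (p ^ 2)) ^ p) f =
    -(p : ZMod (p ^ 2)) • nf (ZMod (p ^ 2)) (expand p (Jac f g))

/-- DX-JAC: reduction modulo `p` of a Weyl pair modulo `p ^ 2` gives Jacobian one. -/
def S_JAC : Prop := ∀ (p : ℕ) [Fact p.Prime] (P Q : W (ZMod (p ^ 2))), P * Q - Q * P = 1 →
  ∀ f g : MvPolynomial (Fin 2) (ZMod p),
    mapW (ZMod.castHom (Dvd.intro_left p (by ring : p * p = p ^ 2)) (ZMod p)) P ^ p
      = nf (ZMod p) (expand p f) →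
    mapW (ZMod.castHom (Dvd.intro_left p (by ring : p * p = p ^ 2)) (ZMod p)) Q ^ p
      = nf (ZMod p) (expand p g) →
    Jac f g = 1

/-! ### D. the endomorphism in characteristic p -/

/-- DX-DEG: the polynomial `f` with `P ^ p = f(x ^ p, y ^ p)` has the leading monomials of `P`. -/
def S_DEG : Prop := ∀ (p : ℕ) [Fact p.Prime] (k : Type) [Field k] [CharP k p] (i : Fin 2)
  (F f : MvPolynomial (Fin 2) k) (B C : ℕ), nf k F ^ p = nf k (expand p f) →
    (LM i F B C ↔ LM i f B C)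

/-- DX-LFT: universal property. -/
def S_LFT : Prop := ∀ (R A : Type) [CommRing R] [Ring A] [Algebra R A] (P Q : A),
  P * Q - Q * P = 1 → ∃ φ : W R →ₐ[R] A, ∀ F, φ (nf R F) = ev P Q F

/-- DX-EVX: the endomorphism on the centre. -/
def S_EVX : Prop := ∀ (p : ℕ) [Fact p.Prime] (k : Type) [Field k] [CharP k p] (P Q : W k)
  (f g H : MvPolynomial (Fin 2) k), P ^ p = nf k (expand p f) → Q ^ p = nf k (expand p g) →
    ev P Q (expand p H) = nf k (expand p (aeval ![f, g] H))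

/-- DX-INJ: injectivity. -/
def S_INJ : Prop := ∀ (p : ℕ) [Fact p.Prime] (k : Type) [Field k] [CharP k p] (P Q : W k)
  (f g : MvPolynomial (Fin 2) k), P * Q - Q * P = 1 → P ^ p = nf k (expand p f) →
    Q ^ p = nf k (expand p g) →
    (∀ H : MvPolynomial (Fin 2) k, aeval ![f, g] H = 0 → H = 0) →
    ∀ F : MvPolynomial (Fin 2) k, ev P Q F = 0 → F = 0

/-- DX-BND: surjectivity with a bound for the degree. -/
def S_BND : Prop := ∀ (p : ℕ) [Fact p.Prime] (k : Type) [Field k] [CharP k p] (P Q : W k)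
  (f g G₁ G₂ : MvPolynomial (Fin 2) k), P * Q - Q * P = 1 → P ^ p = nf k (expand p f) →
    Q ^ p = nf k (expand p g) → Inv f g G₁ G₂ →
    (∃ H : MvPolynomial (Fin 2) k, ev P Q H = wx k ∧ ∀ i, degreeOf i H = degreeOf i G₁) ∧
    (∃ H : MvPolynomial (Fin 2) k, ev P Q H = wy k ∧ ∀ i, degreeOf i H = degreeOf i G₂)

/-! ### E. ultraproducts -/

/-- The Jacobian conjecture for the pairs whose leading exponents satisfy `T` (the exponents of
`f` are `B i, C i`, those of `g` are `B' i, C' i`). -/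
def JCon (T : (Fin 2 → ℕ) → (Fin 2 → ℕ) → (Fin 2 → ℕ) → (Fin 2 → ℕ) → Prop) : Prop :=
  ∀ (k : Type) [Field k] [CharZero k] (f g : MvPolynomial (Fin 2) k) (B C B' C' : Fin 2 → ℕ),
    Jac f g = 1 → (∀ i, LM i f (B i) (C i)) → (∀ i, LM i g (B' i) (C' i)) → T B C B' C' →
    ∃ G₁ G₂, Inv f g G₁ G₂

/-- DX-ULT: uniform version in large characteristic. -/
def S_ULT : Prop := ∀ (T : (Fin 2 → ℕ) → (Fin 2 → ℕ) → (Fin 2 → ℕ) → (Fin 2 → ℕ) → Prop),
  JCon T → ∀ d : ℕ, ∃ D : ℕ, ∀ p : ℕ, D ≤ p → ∀ [Fact p.Prime]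
    (f g : MvPolynomial (Fin 2) (ZMod p)) (B C B' C' : Fin 2 → ℕ),
    (∀ i, degreeOf i f ≤ d) → (∀ i, degreeOf i g ≤ d) →
    Jac f g = 1 → (∀ i, LM i f (B i) (C i)) → (∀ i, LM i g (B' i) (C' i)) → T B C B' C' →
    ∃ G₁ G₂, Inv f g G₁ G₂ ∧ (∀ i, degreeOf i G₁ ≤ D) ∧ (∀ i, degreeOf i G₂ ≤ D)

/-! ### F. specialisation -/

/-- DX-SCH: Schur's theorem. -/
def S_SCH : Prop := ∀ (f : Polynomial ℤ), 0 < f.natDegree → ∀ N : ℕ,
  ∃ p, N ≤ p ∧ p.Prime ∧ ∃ n : ℤ, (p : ℤ) ∣ f.eval n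

/-- DX-SPA: specialisation to a number field. -/
def S_SPA : Prop := ∀ (K : Type) [Field K] [CharZero K] (S : Finset K),
  ∃ (L : Type) (_ : Field L) (_ : Algebra ℚ L) (_ : FiniteDimensional ℚ L) (C : Subring K)
    (τ : C →+* L), ∀ s ∈ S, ∃ h : s ∈ C, s ≠ 0 → τ ⟨s, h⟩ ≠ 0

/-- DX-SPB: specialisation of a number field modulo `p ^ 2`. -/
def S_SPB : Prop := ∀ (L : Type) [Field L] [Algebra ℚ L] [FiniteDimensional ℚ L] (S : Finset L)
  (N : ℕ), ∃ (p : ℕ) (_ : N ≤ p) (_ : p.Prime) (C : Subring L) (σ : C →+* ZMod (p ^ 2)),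
    ∀ s ∈ S, ∃ h : s ∈ C, s ≠ 0 → IsUnit (σ ⟨s, h⟩)

/-- DX-SPC: specialisation modulo `p ^ 2`. -/
def S_SPC : Prop := ∀ (K : Type) [Field K] [CharZero K] (S : Finset K)
  (N : ℕ), ∃ (p : ℕ) (_ : N ≤ p) (_ : p.Prime) (C : Subring K) (σ : C →+* ZMod (p ^ 2)),
    ∀ s ∈ S, ∃ h : s ∈ C, s ≠ 0 → IsUnit (σ ⟨s, h⟩)

/-! ### G. the theorem -/

/-- DX-FIN: the transfer theorem. -/
def S_FIN : Prop := ∀ (T : (Fin 2 → ℕ) → (Fin 2 → ℕ) → (Fin 2 → ℕ) → (Fin 2 → ℕ) → Prop),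
  JCon T → ∀ (K : Type) [Field K] [CharZero K] (F G : MvPolynomial (Fin 2) K)
    (B C B' C' : Fin 2 → ℕ), nf K F * nf K G - nf K G * nf K F = 1 →
    (∀ i, LM i F (B i) (C i)) → (∀ i, LM i G (B' i) (C' i)) → T B C B' C' →
    (∃ H : MvPolynomial (Fin 2) K, ev (nf K F) (nf K G) H = wx K) ∧
    (∃ H : MvPolynomial (Fin 2) K, ev (nf K F) (nf K G) H = wy K)

end Pool.Agent.W443.DX
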