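import Pool.Agent.W443.DX.Stm
import Pool.Agent.H88R2.DC.Inst

/-! Link between `W K` and the presentation `A1 K` of the first Weyl algebra. -/

set_option autoImplicit false

open MvPolynomial Pool.Agent.H88R2.DC

namespace Pool.Agent.W443.DX

/-- DX-AON. -/
def S_AON : Prop := ∀ (K : Type) [Field K] [CharZero K] (φ : A1 K →ₐ[K] A1 K)
  (F G : MvPolynomial (Fin 2) K), φ (gx K) = elt K F → φ (gy K) = elt K G →
  nf K F * nf K G - nf K G * nf K F = 1 ∧
  ((∃ H : MvPolynomial (Fin 2) K, ev (nf K F) (nf K G) H = wx K) →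
    (∃ H : MvPolynomial (Fin 2) K, ev (nf K F) (nf K G) H = wy K) → Function.Bijective φ)

end Pool.Agent.W443.DX
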