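import Mathlib

/-!
The first Weyl algebra over a commutative ring `R`, realised on the polynomial ring in two
variables: the polynomial `∑ c_m X^m` stands for `∑ c_m x ^ (m 0) * y ^ (m 1)`, `x y - y x = 1`.
-/

set_option autoImplicit false

open MvPolynomial

namespace Pool.Agent.W443.DX

section Op
variable (R : Type) [CommRing R]

/-- multiplication by the first variable -/
noncomputable def xh : Module.End R (MvPolynomial (Fin 2) R) := LinearMap.mulLeft R (X 0)

/-- multiplication by the second variable minus the derivative in the first one -/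
noncomputable def yh : Module.End R (MvPolynomial (Fin 2) R) :=
  LinearMap.mulLeft R (X 1) - (pderiv (0 : Fin 2)).toLinearMap

/-- the operator `∑ c_m xh ^ (m 0) * yh ^ (m 1)` -/
noncomputable def op : MvPolynomial (Fin 2) R →ₗ[R] Module.End R (MvPolynomial (Fin 2) R) :=
  (basisMonomials (Fin 2) R).constr R fun m => xh R ^ (m 0) * yh R ^ (m 1)

variable {R}

theorem xh_apply (G : MvPolynomial (Fin 2) R) : xh R G = X 0 * G := rfl

theorem yh_apply (G : MvPolynomial (Fin 2) R) : yh R G = X 1 * G - pderiv 0 G := rfl

theorem op_monomial_one (m : Fin 2 →₀ ℕ) :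
    op R (monomial m 1) = xh R ^ (m 0) * yh R ^ (m 1) := by
  have h := (basisMonomials (Fin 2) R).constr_basis R (fun m => xh R ^ (m 0) * yh R ^ (m 1)) m
  rw [op]
  simpa using h

theorem op_monomial (m : Fin 2 →₀ ℕ) (c : R) :
    op R (monomial m c) = c • (xh R ^ (m 0) * yh R ^ (m 1)) := by
  rw [← op_monomial_one, ← map_smul, smul_monomial, smul_eq_mul, mul_one]

theorem op_one : op R 1 = 1 := by
  have := op_monomial_one (R := R) 0
  simpa using this

theorem xh_pow_apply (a : ℕ) (G : MvPolynomial (Fin 2) R) : (xh R ^ a) G = X 0 ^ a * G := by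
  induction a with
  | zero => simp
  | succ n ih => rw [pow_succ', Module.End.mul_apply, ih, xh_apply, pow_succ']; ring

theorem yh_pow_one (b : ℕ) : (yh R ^ b) 1 = X 1 ^ b := by
  induction b with
  | zero => simp
  | succ n ih =>
    rw [pow_succ', Module.End.mul_apply, ih, yh_apply, pow_succ']
    have : pderiv (0 : Fin 2) ((X 1 : MvPolynomial (Fin 2) R) ^ n) = 0 := by
      rw [Derivation.leibniz_pow, pderiv_X_of_ne (by decide)]; simp
    rw [this, sub_zero]

theorem op_apply_one (F : MvPolynomial (Fin 2) R) : op R F 1 = F := by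
  induction F using MvPolynomial.induction_on' with
  | monomial m c =>
    rw [op_monomial, LinearMap.smul_apply, Module.End.mul_apply, yh_pow_one, xh_pow_apply,
      smul_eq_C_mul]
    rw [monomial_eq, Finsupp.prod_fintype _ _ (by simp), Fin.prod_univ_two]
  | add p q hp hq => rw [map_add, LinearMap.add_apply, hp, hq]

theorem xh_mul_op (G : MvPolynomial (Fin 2) R) : xh R * op R G = op R (xh R G) := by
  induction G using MvPolynomial.induction_on' with
  | monomial m c =>
    have e : xh R (monomial m c) = monomial (Finsupp.single 0 1 + m) c := by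
      rw [xh_apply, X, monomial_mul, one_mul]
    rw [e, op_monomial, op_monomial, mul_smul_comm, ← mul_assoc, ← pow_succ']
    congr 2
    · simp [add_comm]
    · simp
  | add p q hp hq => rw [map_add, map_add, mul_add, hp, hq, map_add]

theorem yh_comm_xh : yh R * xh R = xh R * yh R - 1 := by
  ext1 G
  refine LinearMap.ext fun c => ?_
  simp only [LinearMap.comp_apply, Module.End.mul_apply, LinearMap.sub_apply, yh_apply, xh_apply,
    Derivation.leibniz, pderiv_X_self, Module.End.one_apply, smul_eq_mul]
  ring

theorem yh_mul_xh_pow (a : ℕ) :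
    yh R * xh R ^ a = xh R ^ a * yh R - (a : R) • xh R ^ (a - 1) := by
  induction a with
  | zero => simp
  | succ n ih =>
    rw [pow_succ, ← mul_assoc, ih, sub_mul, mul_assoc, yh_comm_xh, mul_sub, mul_one, smul_mul_assoc]
    rcases n with _ | n
    · simp
    · rw [Nat.add_sub_cancel, Nat.add_sub_cancel, ← pow_succ, ← mul_assoc]
      push_cast
      module

theorem yh_mul_op (G : MvPolynomial (Fin 2) R) : yh R * op R G = op R (yh R G) := by
  induction G using MvPolynomial.induction_on' with
  | monomial m c =>
    have e : yh R (monomial m c) = monomial (Finsupp.single 1 1 + m) c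
        - monomial (m - Finsupp.single 0 1) (c * (m 0 : R)) := by
      rw [yh_apply, X, monomial_mul, one_mul, pderiv_monomial]
    rw [e, map_sub, op_monomial, op_monomial, op_monomial, mul_smul_comm, ← mul_assoc,
      yh_mul_xh_pow, sub_mul, smul_sub, mul_assoc, ← pow_succ']
    congr 1
    · congr 2
      · simp
      · simp [add_comm]
    · rw [smul_mul_assoc, smul_smul]
      have e1 : (m - Finsupp.single (0 : Fin 2) 1 : Fin 2 →₀ ℕ) 1 = m 1 := by simp
      have e0 : (m - Finsupp.single (0 : Fin 2) 1 : Fin 2 →₀ ℕ) 0 = m 0 - 1 := by simp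
      rw [e1, e0]
  | add p q hp hq => rw [map_add, map_add, mul_add, hp, hq, map_add]

theorem op_op (F G : MvPolynomial (Fin 2) R) : op R (op R F G) = op R F * op R G := by
  have hy : ∀ (b : ℕ) (G : MvPolynomial (Fin 2) R), op R ((yh R ^ b) G) = yh R ^ b * op R G := by
    intro b
    induction b with
    | zero => intro G; simp
    | succ n ih =>
      intro G
      rw [pow_succ', Module.End.mul_apply, ← yh_mul_op, ih, mul_assoc]
  have hx : ∀ (a : ℕ) (G : MvPolynomial (Fin 2) R), op R ((xh R ^ a) G) = xh R ^ a * op R G := by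
    intro a
    induction a with
    | zero => intro G; simp
    | succ n ih =>
      intro G
      rw [pow_succ', Module.End.mul_apply, ← xh_mul_op, ih, mul_assoc]
  induction F using MvPolynomial.induction_on' with
  | monomial m c =>
    rw [op_monomial, LinearMap.smul_apply, map_smul, Module.End.mul_apply, hx, hy, smul_mul_assoc,
      mul_assoc]
  | add p q hp hq => rw [map_add, LinearMap.add_apply, map_add, hp, hq, add_mul]

end Op

/-- The first Weyl algebra over `R`, as a type: polynomials in two variables (normally ordered). -/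
def W (R : Type) [CommRing R] : Type := MvPolynomial (Fin 2) R

section Ring
variable (R : Type) [CommRing R]

noncomputable instance : AddCommGroup (W R) :=
  inferInstanceAs (AddCommGroup (MvPolynomial (Fin 2) R))

noncomputable instance : Module R (W R) := inferInstanceAs (Module R (MvPolynomial (Fin 2) R))

/-- the normally ordered element with given coefficients -/
noncomputable def nf : MvPolynomial (Fin 2) R ≃ₗ[R] W R := LinearEquiv.refl R _

noncomputable instance : Mul (W R) := ⟨fun F G => nf R (op R ((nf R).symm F) ((nf R).symm G))⟩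

noncomputable instance : One (W R) := ⟨nf R 1⟩

variable {R}

theorem nf_mul (F G : MvPolynomial (Fin 2) R) : nf R F * nf R G = nf R (op R F G) := rfl

theorem nf_one : nf R 1 = 1 := rfl

noncomputable instance : Ring (W R) :=
  { (inferInstance : AddCommGroup (W R)), (inferInstance : Mul (W R)),
    (inferInstance : One (W R)) with
  zero_mul := fun a => by
    obtain ⟨F, rfl⟩ := (nf R).surjective a
    rw [← map_zero (nf R), nf_mul, map_zero (op R)]; rfl
  mul_zero := fun a => by
    obtain ⟨F, rfl⟩ := (nf R).surjective a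
    rw [← map_zero (nf R), nf_mul, map_zero]
  one_mul := fun a => by
    obtain ⟨F, rfl⟩ := (nf R).surjective a
    rw [← nf_one, nf_mul, op_one]; rfl
  mul_one := fun a => by
    obtain ⟨F, rfl⟩ := (nf R).surjective a
    rw [← nf_one, nf_mul, op_apply_one]
  mul_assoc := fun a b c => by
    obtain ⟨F, rfl⟩ := (nf R).surjective a
    obtain ⟨G, rfl⟩ := (nf R).surjective b
    obtain ⟨H, rfl⟩ := (nf R).surjective c
    rw [nf_mul, nf_mul, nf_mul, nf_mul, op_op]; rfl
  left_distrib := fun a b c => by
    obtain ⟨F, rfl⟩ := (nf R).surjective a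
    obtain ⟨G, rfl⟩ := (nf R).surjective b
    obtain ⟨H, rfl⟩ := (nf R).surjective c
    rw [← map_add, nf_mul, nf_mul, nf_mul, map_add, map_add]
  right_distrib := fun a b c => by
    obtain ⟨F, rfl⟩ := (nf R).surjective a
    obtain ⟨G, rfl⟩ := (nf R).surjective b
    obtain ⟨H, rfl⟩ := (nf R).surjective c
    rw [← map_add, nf_mul, nf_mul, nf_mul, map_add, LinearMap.add_apply, map_add] }

noncomputable instance : Algebra R (W R) := Algebra.ofModule
  (fun r a b => by
    obtain ⟨F, rfl⟩ := (nf R).surjective a
    obtain ⟨G, rfl⟩ := (nf R).surjective b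
    rw [← map_smul, nf_mul, nf_mul, map_smul, LinearMap.smul_apply, map_smul])
  (fun r a b => by
    obtain ⟨F, rfl⟩ := (nf R).surjective a
    obtain ⟨G, rfl⟩ := (nf R).surjective b
    rw [← map_smul, nf_mul, nf_mul, map_smul, map_smul])

variable (R)

/-- first generator -/
noncomputable def wx : W R := nf R (X 0)

/-- second generator -/
noncomputable def wy : W R := nf R (X 1)

variable {R}

theorem wx_mul (F : MvPolynomial (Fin 2) R) : wx R * nf R F = nf R (X 0 * F) := by
  rw [wx, nf_mul]
  have : op R (X 0) = xh R := by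
    rw [X, op_monomial_one]; simp
  rw [this, xh_apply]

theorem wy_mul (F : MvPolynomial (Fin 2) R) : wy R * nf R F = nf R (X 1 * F - pderiv 0 F) := by
  rw [wy, nf_mul]
  have : op R (X 1) = yh R := by
    rw [X, op_monomial_one]; simp
  rw [this, yh_apply]

theorem wxy_rel : wx R * wy R - wy R * wx R = 1 := by
  rw [wy, wx_mul, ← wy, wx, wy_mul, ← map_sub, ← nf_one]
  congr 1
  rw [pderiv_X_self]; ring

theorem wx_pow_mul (a : ℕ) (F : MvPolynomial (Fin 2) R) :
    wx R ^ a * nf R F = nf R (X 0 ^ a * F) := by
  induction a with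
  | zero => simp
  | succ n ih => rw [pow_succ', mul_assoc, ih, wx_mul, pow_succ']; congr 1; ring

theorem wy_pow (b : ℕ) : wy R ^ b = nf R (X 1 ^ b) := by
  induction b with
  | zero => rw [pow_zero, pow_zero, nf_one]
  | succ n ih =>
    rw [pow_succ', ih, wy_mul, pow_succ']
    have : pderiv (0 : Fin 2) ((X 1 : MvPolynomial (Fin 2) R) ^ n) = 0 := by
      rw [Derivation.leibniz_pow, pderiv_X_of_ne (by decide)]; simp
    rw [this, sub_zero]

theorem nf_monomial (m : Fin 2 →₀ ℕ) (c : R) :
    nf R (monomial m c) = c • (wx R ^ (m 0) * wy R ^ (m 1)) := by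
  rw [wy_pow, wx_pow_mul, ← map_smul, smul_eq_C_mul, monomial_eq,
    Finsupp.prod_fintype _ _ (by simp), Fin.prod_univ_two]

end Ring

/-- `∑ c_m P ^ (m 0) * Q ^ (m 1)` -/
noncomputable def ev {R A : Type} [CommRing R] [Ring A] [Algebra R A] (P Q : A) :
    MvPolynomial (Fin 2) R →ₗ[R] A :=
  (basisMonomials (Fin 2) R).constr R fun m => P ^ (m 0) * Q ^ (m 1)

theorem ev_monomial {R A : Type} [CommRing R] [Ring A] [Algebra R A] (P Q : A)
    (m : Fin 2 →₀ ℕ) (c : R) :
    ev P Q (monomial m c) = c • (P ^ (m 0) * Q ^ (m 1)) := by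
  have h := (basisMonomials (Fin 2) R).constr_basis R (fun m => P ^ (m 0) * Q ^ (m 1)) m
  have e : (monomial m c : MvPolynomial (Fin 2) R) = c • monomial m 1 := by
    rw [smul_monomial, smul_eq_mul, mul_one]
  rw [e, map_smul, ev]
  simpa using congrArg (fun z => c • z) h

theorem ev_self {R : Type} [CommRing R] (F : MvPolynomial (Fin 2) R) :
    ev (wx R) (wy R) F = nf R F := by
  induction F using MvPolynomial.induction_on' with
  | monomial m c => rw [ev_monomial, nf_monomial]
  | add p q hp hq => rw [map_add, hp, hq, map_add]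

/-! base change -/
section Map
variable {R S : Type} [CommRing R] [CommRing S] (σ : R →+* S)

theorem map_op (F G : MvPolynomial (Fin 2) R) :
    MvPolynomial.map σ (op R F G) = op S (MvPolynomial.map σ F) (MvPolynomial.map σ G) := by
  have hx : ∀ (a : ℕ) (G : MvPolynomial (Fin 2) R),
      MvPolynomial.map σ ((xh R ^ a) G) = (xh S ^ a) (MvPolynomial.map σ G) := by
    intro a G
    rw [xh_pow_apply, xh_pow_apply, map_mul, map_pow, map_X]
  have hy : ∀ (b : ℕ) (G : MvPolynomial (Fin 2) R),
      MvPolynomial.map σ ((yh R ^ b) G) = (yh S ^ b) (MvPolynomial.map σ G) := by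
    intro b
    induction b with
    | zero => intro G; simp
    | succ n ih =>
      intro G
      rw [pow_succ', pow_succ', Module.End.mul_apply, Module.End.mul_apply, ← ih, yh_apply,
        yh_apply, map_sub, map_mul, map_X, ← pderiv_map]
  induction F using MvPolynomial.induction_on' with
  | monomial m c =>
    rw [map_monomial, op_monomial, op_monomial, LinearMap.smul_apply, LinearMap.smul_apply,
      Module.End.mul_apply, Module.End.mul_apply, ← hy, ← hx, smul_eq_C_mul, smul_eq_C_mul,
      map_mul, map_C]
  | add p q hp hq =>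
    rw [map_add, map_add, map_add, LinearMap.add_apply, LinearMap.add_apply, map_add, hp, hq]

/-- base change -/
noncomputable def mapW : W R →+* W S where
  toFun a := nf S (MvPolynomial.map σ ((nf R).symm a))
  map_one' := by
    rw [← nf_one, LinearEquiv.symm_apply_apply, map_one]; rfl
  map_mul' a b := by
    obtain ⟨F, rfl⟩ := (nf R).surjective a
    obtain ⟨G, rfl⟩ := (nf R).surjective b
    rw [nf_mul, LinearEquiv.symm_apply_apply, LinearEquiv.symm_apply_apply,
      LinearEquiv.symm_apply_apply, map_op, nf_mul]
  map_zero' := by simp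
  map_add' a b := by simp

theorem mapW_nf (F : MvPolynomial (Fin 2) R) : mapW σ (nf R F) = nf S (MvPolynomial.map σ F) := by
  show nf S (MvPolynomial.map σ ((nf R).symm (nf R F))) = _
  rw [LinearEquiv.symm_apply_apply]

end Map

end Pool.Agent.W443.DX
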