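import Pool.Agent.W443.DX.Stm

/-! The transfer theorem from its parts. -/

set_option autoImplicit false

open MvPolynomial

namespace Pool.Agent.W443.DX

theorem mapW_injective {R S : Type} [CommRing R] [CommRing S] (σ : R →+* S)
    (h : Function.Injective σ) : Function.Injective (mapW σ) := by
  intro a b hab
  obtain ⟨F, rfl⟩ := (nf R).surjective a
  obtain ⟨G, rfl⟩ := (nf R).surjective b
  rw [mapW_nf, mapW_nf] at hab
  rw [MvPolynomial.map_injective σ h ((nf S).injective hab)]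

/-- coefficients of an element of `W R` -/
noncomputable def cf {R : Type} [CommRing R] (m : Fin 2 →₀ ℕ) (a : W R) : R :=
  coeff m ((nf R).symm a)

theorem cf_nf {R : Type} [CommRing R] (m : Fin 2 →₀ ℕ) (F : MvPolynomial (Fin 2) R) :
    cf m (nf R F) = coeff m F := by
  rw [cf, LinearEquiv.symm_apply_apply]

theorem cf_mapW {R S : Type} [CommRing R] [CommRing S] (σ : R →+* S) (m : Fin 2 →₀ ℕ) (a : W R) :
    cf m (mapW σ a) = σ (cf m a) := by
  obtain ⟨F, rfl⟩ := (nf R).surjective a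
  rw [mapW_nf, cf_nf, cf_nf, coeff_map]

theorem cf_add {R : Type} [CommRing R] (m : Fin 2 →₀ ℕ) (a b : W R) :
    cf m (a + b) = cf m a + cf m b := by
  rw [cf, map_add, coeff_add, cf, cf]

theorem cf_smul {R : Type} [CommRing R] (m : Fin 2 →₀ ℕ) (c : R) (a : W R) :
    cf m (c • a) = c * cf m a := by
  rw [cf, map_smul, coeff_smul, cf, smul_eq_mul]

theorem cf_zero {R : Type} [CommRing R] (m : Fin 2 →₀ ℕ) : cf m (0 : W R) = 0 := by
  rw [cf, map_zero, coeff_zero]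

theorem LM_congr {R S : Type} [CommRing R] [CommRing S] (i : Fin 2) (F : MvPolynomial (Fin 2) R)
    (G : MvPolynomial (Fin 2) S) (h : ∀ m, coeff m F ≠ 0 ↔ coeff m G ≠ 0) (B C : ℕ) :
    LM i F B C ↔ LM i G B C := by
  unfold LM
  rw [h]
  constructor
  · rintro ⟨h1, h2⟩
    exact ⟨h1, fun m hm => h2 m ((h m).2 hm)⟩
  · rintro ⟨h1, h2⟩
    exact ⟨h1, fun m hm => h2 m ((h m).1 hm)⟩

theorem degreeOf_congr {R S : Type} [CommRing R] [CommRing S] (i : Fin 2)
    (F : MvPolynomial (Fin 2) R)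
    (G : MvPolynomial (Fin 2) S) (h : ∀ m, coeff m F ≠ 0 ↔ coeff m G ≠ 0) :
    degreeOf i F = degreeOf i G := by
  rw [degreeOf_eq_sup, degreeOf_eq_sup]
  have : F.support = G.support := by
    ext m
    rw [mem_support_iff, mem_support_iff, h]
  rw [this]

/-- lift of a polynomial to a subring containing its coefficients -/
theorem exists_lift {K : Type} [Field K] (C : Subring K) (F : MvPolynomial (Fin 2) K)
    (h : ∀ m ∈ F.support, coeff m F ∈ C) :
    ∃ F' : MvPolynomial (Fin 2) C, MvPolynomial.map C.subtype F' = F := by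
  refine ⟨∑ m ∈ F.support.attach, monomial m.1 ⟨coeff m.1 F, h m.1 m.2⟩, ?_⟩
  rw [map_sum]
  conv_rhs => rw [F.as_sum, ← Finset.sum_attach]
  refine Finset.sum_congr rfl fun m _ => ?_
  rw [map_monomial]
  rfl

theorem ev_vanish {k : Type} [CommRing k] (P Q : W k) (Λ : W k →ₗ[k] k) (D : ℕ)
    (h : ∀ a ≤ D, ∀ b ≤ D, Λ (P ^ a * Q ^ b) = 0) (H : MvPolynomial (Fin 2) k)
    (hH : ∀ i, degreeOf i H ≤ D) : Λ (ev P Q H) = 0 := by
  rw [H.as_sum, map_sum, map_sum]
  refine Finset.sum_eq_zero fun m hm => ?_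
  rw [ev_monomial, map_smul, h, smul_zero]
  · exact (monomial_le_degreeOf 0 hm).trans (hH 0)
  · exact (monomial_le_degreeOf 1 hm).trans (hH 1)

/-- the part modulo `p` -/
theorem modp (hPOW : S_POW) (hCZR : S_CZR) (hJAC : S_JAC) (hDEG : S_DEG) (hBND : S_BND)
    (hLME : S_LME)
    (T : (Fin 2 → ℕ) → (Fin 2 → ℕ) → (Fin 2 → ℕ) → (Fin 2 → ℕ) → Prop) (d D : ℕ)
    (hD : ∀ p : ℕ, D ≤ p → ∀ [Fact p.Prime]
      (f g : MvPolynomial (Fin 2) (ZMod p)) (B C B' C' : Fin 2 → ℕ),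
      (∀ i, degreeOf i f ≤ d) → (∀ i, degreeOf i g ≤ d) →
      Jac f g = 1 → (∀ i, LM i f (B i) (C i)) → (∀ i, LM i g (B' i) (C' i)) → T B C B' C' →
      ∃ G₁ G₂, Inv f g G₁ G₂ ∧ (∀ i, degreeOf i G₁ ≤ D) ∧ (∀ i, degreeOf i G₂ ≤ D))
    (p : ℕ) (hp : D ≤ p) [Fact p.Prime] (P Q : W (ZMod (p ^ 2))) (hrel : P * Q - Q * P = 1)
    (F G : MvPolynomial (Fin 2) (ZMod p))
    (hF : mapW (ZMod.castHom (Dvd.intro_left p (by ring : p * p = p ^ 2)) (ZMod p)) P
      = nf (ZMod p) F)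
    (hG : mapW (ZMod.castHom (Dvd.intro_left p (by ring : p * p = p ^ 2)) (ZMod p)) Q
      = nf (ZMod p) G)
    (B C B' C' : Fin 2 → ℕ) (hFd : ∀ i, degreeOf i F ≤ d) (hGd : ∀ i, degreeOf i G ≤ d)
    (hFL : ∀ i, LM i F (B i) (C i)) (hGL : ∀ i, LM i G (B' i) (C' i)) (hT : T B C B' C')
    (j : Fin 2) :
    ∃ H : MvPolynomial (Fin 2) (ZMod p), ev (nf (ZMod p) F) (nf (ZMod p) G) H
      = nf (ZMod p) (X j) ∧ ∀ i, degreeOf i H ≤ D := by
  set c := ZMod.castHom (Dvd.intro_left p (by ring : p * p = p ^ 2)) (ZMod p) with hc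
  have hrel' : nf (ZMod p) F * nf (ZMod p) G - nf (ZMod p) G * nf (ZMod p) F = 1 := by
    rw [← hF, ← hG, ← map_mul, ← map_mul, ← map_sub, hrel, map_one]
  have hp0 : ((p : ℕ) : W (ZMod p)) = 0 := by
    have : ((p : ℕ) : W (ZMod p)) = algebraMap (ZMod p) (W (ZMod p)) (p : ZMod p) := by
      rw [map_natCast]
    rw [this, CharP.cast_eq_zero, map_zero]
  obtain ⟨h1, h2⟩ := hPOW p (W (ZMod p)) _ _ hp0 hrel'
  obtain ⟨f, hf⟩ := hCZR p (ZMod p) (nf (ZMod p) F) (nf (ZMod p) G) (nf (ZMod p) F ^ p) hrel'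
    (Commute.self_pow _ _).eq h1.symm
  obtain ⟨g, hg⟩ := hCZR p (ZMod p) (nf (ZMod p) F) (nf (ZMod p) G) (nf (ZMod p) G ^ p) hrel'
    h2 (Commute.self_pow _ _).eq
  have hJ : Jac f g = 1 := by
    refine hJAC p P Q hrel f g ?_ ?_
    · rw [← hc, hF, hf]
    · rw [← hc, hG, hg]
  have hfL : ∀ i, LM i f (B i) (C i) := fun i => (hDEG p (ZMod p) i F f _ _ hf).1 (hFL i)
  have hgL : ∀ i, LM i g (B' i) (C' i) := fun i => (hDEG p (ZMod p) i G g _ _ hg).1 (hGL i)
  have hfd : ∀ i, degreeOf i f ≤ d := fun i => by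
    rw [← ((hLME (ZMod p) i f).2 _ _ (hfL i)).1, ((hLME (ZMod p) i F).2 _ _ (hFL i)).1]
    exact hFd i
  have hgd : ∀ i, degreeOf i g ≤ d := fun i => by
    rw [← ((hLME (ZMod p) i g).2 _ _ (hgL i)).1, ((hLME (ZMod p) i G).2 _ _ (hGL i)).1]
    exact hGd i
  obtain ⟨G₁, G₂, hI, hd1, hd2⟩ := hD p hp f g B C B' C' hfd hgd hJ hfL hgL hT
  obtain ⟨⟨H1, e1, b1⟩, ⟨H2, e2, b2⟩⟩ := hBND p (ZMod p) _ _ f g G₁ G₂ hrel' hf hg hI
  fin_cases j
  · exact ⟨H1, e1, fun i => by rw [b1]; exact hd1 i⟩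
  · exact ⟨H2, e2, fun i => by rw [b2]; exact hd2 i⟩

theorem fin (hPOW : S_POW) (hCZR : S_CZR) (hJAC : S_JAC) (hDEG : S_DEG) (hULT : S_ULT)
    (hBND : S_BND) (hSPC : S_SPC) (hLME : S_LME) : S_FIN := by
  classical
  intro T hT K _ _ F G B C B' C' hrel hFL hGL hTB
  set d : ℕ := degreeOf 0 F + degreeOf 1 F + degreeOf 0 G + degreeOf 1 G with hd
  obtain ⟨D, hD⟩ := hULT T hT d
  set P := nf K F with hP
  set Q := nf K G with hQ
  -- it is enough to reach both generators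
  suffices key : ∀ j : Fin 2, ∃ H : MvPolynomial (Fin 2) K, ev P Q H = nf K (X j) from
    ⟨key 0, key 1⟩
  intro j
  by_contra hno
  set V : Submodule K (W K) := Submodule.span K
    {w | ∃ a b : ℕ, a ≤ D ∧ b ≤ D ∧ w = P ^ a * Q ^ b} with hV
  have hjV : nf K (X j) ∉ V := by
    intro hmem
    apply hno
    have : V ≤ LinearMap.range (ev (R := K) P Q) := by
      rw [hV, Submodule.span_le]
      rintro _ ⟨a, b, _, _, rfl⟩
      refine ⟨monomial (Finsupp.single 0 a + Finsupp.single 1 b) 1, ?_⟩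
      rw [ev_monomial, one_smul]
      simp
    obtain ⟨H, hH⟩ := this hmem
    exact ⟨H, hH⟩
  obtain ⟨lam, hlam1, hlam2⟩ := Submodule.exists_le_ker_of_notMem hjV
  have hlam0 : ∀ a ≤ D, ∀ b ≤ D, lam (P ^ a * Q ^ b) = 0 := fun a ha b hb =>
    LinearMap.mem_ker.1 (hlam2 (Submodule.subset_span ⟨a, b, ha, hb, rfl⟩))
  set lm : (Fin 2 →₀ ℕ) → K := fun m => lam (nf K (monomial m 1)) with hlm
  -- the finite set of monomials
  set M : Finset (Fin 2 →₀ ℕ) := insert (Finsupp.single j 1)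
    ((Finset.range (D + 1) ×ˢ Finset.range (D + 1)).biUnion fun ab =>
      ((nf K).symm (P ^ ab.1 * Q ^ ab.2)).support) with hM
  have hMsub : ∀ a ≤ D, ∀ b ≤ D, ((nf K).symm (P ^ a * Q ^ b)).support ⊆ M := by
    intro a ha b hb m hm
    rw [hM]
    refine Finset.mem_insert_of_mem (Finset.mem_biUnion.2 ⟨(a, b), ?_, hm⟩)
    rw [Finset.mem_product, Finset.mem_range, Finset.mem_range]
    exact ⟨Nat.lt_succ_of_le ha, Nat.lt_succ_of_le hb⟩
  have hlamM : ∀ w : W K, ((nf K).symm w).support ⊆ M → lam w = ∑ m ∈ M, cf m w * lm m := by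
    intro w hw
    obtain ⟨E, rfl⟩ := (nf K).surjective w
    rw [LinearEquiv.symm_apply_apply] at hw
    have e : nf K E = ∑ m ∈ M, (coeff m E) • nf K (monomial m 1) := by
      conv_lhs => rw [E.as_sum, map_sum]
      refine Finset.sum_subset_zero_on_sdiff hw ?_ ?_
      · intro m hm
        rw [Finset.mem_sdiff, mem_support_iff, not_not] at hm
        rw [hm.2, zero_smul]
      · intro m _
        rw [← map_smul, smul_monomial, smul_eq_mul, mul_one]
    conv_lhs => rw [e, map_sum]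
    refine Finset.sum_congr rfl fun m _ => ?_
    rw [map_smul, cf_nf, smul_eq_mul]
  -- the finite set of numbers
  set S : Finset K := (F.support.image fun m => coeff m F) ∪ (G.support.image fun m => coeff m G) ∪
    M.image lm with hS
  obtain ⟨p, hDp, hp, C₀, σ, hσ⟩ := hSPC K S D
  have : Fact p.Prime := ⟨hp⟩
  set c := ZMod.castHom (Dvd.intro_left p (by ring : p * p = p ^ 2)) (ZMod p) with hc
  have hFS : ∀ m ∈ F.support, coeff m F ∈ S := fun m hm => by
    rw [hS]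
    exact Finset.mem_union_left _ (Finset.mem_union_left _ (Finset.mem_image_of_mem _ hm))
  have hGS : ∀ m ∈ G.support, coeff m G ∈ S := fun m hm => by
    rw [hS]
    exact Finset.mem_union_left _ (Finset.mem_union_right _ (Finset.mem_image_of_mem _ hm))
  have hlS : ∀ m ∈ M, lm m ∈ S := fun m hm => by
    rw [hS]
    exact Finset.mem_union_right _ (Finset.mem_image_of_mem _ hm)
  have hmemC : ∀ s ∈ S, s ∈ C₀ := fun s hs => (hσ s hs).1
  obtain ⟨F₀, hF₀⟩ := exists_lift C₀ F fun m hm => hmemC _ (hFS m hm)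
  obtain ⟨G₀, hG₀⟩ := exists_lift C₀ G fun m hm => hmemC _ (hGS m hm)
  have hinj : Function.Injective C₀.subtype := Subtype.val_injective
  -- nonzero elements of S stay nonzero
  have hnz : ∀ x : C₀, (x : K) ∈ S → (x : K) ≠ 0 → c (σ x) ≠ 0 := by
    intro x hx hx0 h0
    obtain ⟨h1, h2⟩ := hσ _ hx
    have h3 : IsUnit (c (σ x)) := (h2 hx0).map c
    exact h3.ne_zero h0
  have hsup : ∀ (E : MvPolynomial (Fin 2) K) (E₀ : MvPolynomial (Fin 2) C₀),
      MvPolynomial.map C₀.subtype E₀ = E → (∀ m ∈ E.support, coeff m E ∈ S) →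
      ∀ m, coeff m E ≠ 0 ↔ coeff m (MvPolynomial.map c (MvPolynomial.map σ E₀)) ≠ 0 := by
    intro E E₀ hE hES m
    have e1 : coeff m E = (coeff m E₀ : C₀) := by rw [← hE, coeff_map]; rfl
    rw [coeff_map, coeff_map]
    constructor
    · intro h
      refine hnz _ ?_ ?_
      · rw [← e1]; exact hES m (mem_support_iff.2 h)
      · rw [← e1]; exact h
    · intro h h0
      apply h
      have : coeff m E₀ = 0 := by
        apply Subtype.ext
        rw [← e1, h0]; rfl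
      rw [this, map_zero, map_zero]
  set F₁ := MvPolynomial.map c (MvPolynomial.map σ F₀) with hF₁
  set G₁ := MvPolynomial.map c (MvPolynomial.map σ G₀) with hG₁
  have hsF := hsup F F₀ hF₀ hFS
  have hsG := hsup G G₀ hG₀ hGS
  have hrel₀ : nf C₀ F₀ * nf C₀ G₀ - nf C₀ G₀ * nf C₀ F₀ = 1 := by
    apply mapW_injective C₀.subtype hinj
    rw [map_sub, map_mul, map_mul, mapW_nf, mapW_nf, hF₀, hG₀, map_one]
    exact hrel
  have hrel₁ : mapW σ (nf C₀ F₀) * mapW σ (nf C₀ G₀) - mapW σ (nf C₀ G₀) * mapW σ (nf C₀ F₀)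
      = 1 := by
    have := congrArg (mapW σ) hrel₀
    rwa [map_sub, map_mul (mapW σ), map_mul (mapW σ), map_one] at this
  have hdF : ∀ i, degreeOf i F ≤ d := by
    intro i; fin_cases i
    · show degreeOf 0 F ≤ d
      omega
    · show degreeOf 1 F ≤ d
      omega
  have hdG : ∀ i, degreeOf i G ≤ d := by
    intro i; fin_cases i
    · show degreeOf 0 G ≤ d
      omega
    · show degreeOf 1 G ≤ d
      omega
  obtain ⟨H, hH, hHd⟩ := modp hPOW hCZR hJAC hDEG hBND hLME T d D hD p hDp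
    (mapW σ (nf C₀ F₀)) (mapW σ (nf C₀ G₀)) hrel₁ F₁ G₁
    (by rw [mapW_nf, mapW_nf]) (by rw [mapW_nf, mapW_nf]) B C B' C'
    (fun i => by rw [← degreeOf_congr i F F₁ hsF]; exact hdF i)
    (fun i => by rw [← degreeOf_congr i G G₁ hsG]; exact hdG i)
    (fun i => (LM_congr i F F₁ hsF _ _).1 (hFL i)) (fun i => (LM_congr i G G₁ hsG _ _).1 (hGL i))
    hTB j
  -- the functional modulo p
  set l₀ : (Fin 2 →₀ ℕ) → C₀ := fun m => if h : m ∈ M then ⟨lm m, hmemC _ (hlS m h)⟩ else 0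
    with hl₀
  have hl₀' : ∀ m ∈ M, ((l₀ m : C₀) : K) = lm m := by
    intro m hm
    rw [hl₀]
    simp only [hm, dif_pos]
  let Lam : W (ZMod p) →ₗ[ZMod p] ZMod p :=
    { toFun := fun w => ∑ m ∈ M, cf m w * c (σ (l₀ m))
      map_add' := fun a b => by
        simp only [cf_add, add_mul, Finset.sum_add_distrib]
      map_smul' := fun r a => by
        simp only [cf_smul, RingHom.id_apply, smul_eq_mul, Finset.mul_sum, mul_assoc] }
  have hLam : ∀ w, Lam w = ∑ m ∈ M, cf m w * c (σ (l₀ m)) := fun _ => rfl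
  have hLam0 : ∀ a ≤ D, ∀ b ≤ D, Lam (nf (ZMod p) F₁ ^ a * nf (ZMod p) G₁ ^ b) = 0 := by
    intro a ha b hb
    have e1 : nf (ZMod p) F₁ ^ a * nf (ZMod p) G₁ ^ b
        = mapW c (mapW σ (nf C₀ F₀ ^ a * nf C₀ G₀ ^ b)) := by
      rw [map_mul, map_mul, map_pow, map_pow, map_pow, map_pow, mapW_nf, mapW_nf, mapW_nf, mapW_nf]
    rw [hLam, e1]
    have e2 : ∑ m ∈ M, cf m (nf C₀ F₀ ^ a * nf C₀ G₀ ^ b) * l₀ m = 0 := by
      apply hinj
      rw [map_sum, map_zero, ← hlam0 a ha b hb, hlamM _ (hMsub a ha b hb)]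
      refine Finset.sum_congr rfl fun m hm => ?_
      rw [map_mul, ← cf_mapW, map_mul, map_pow, map_pow, mapW_nf, mapW_nf, hF₀, hG₀]
      congr 1
      exact hl₀' m hm
    have e3 := congrArg (fun x => c (σ x)) e2
    simp only [map_sum, map_mul, map_zero] at e3
    rw [← e3]
    refine Finset.sum_congr rfl fun m _ => ?_
    rw [cf_mapW, cf_mapW]
  have h0 := ev_vanish _ _ Lam D hLam0 H hHd
  rw [hH, hLam] at h0
  have hjM : Finsupp.single j 1 ∈ M := by rw [hM]; exact Finset.mem_insert_self _ _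
  rw [Finset.sum_eq_single_of_mem _ hjM] at h0
  · rw [cf_nf] at h0
    have e1 : coeff (Finsupp.single j 1) (X j : MvPolynomial (Fin 2) (ZMod p)) = 1 := by
      rw [coeff_X, if_pos rfl]
    rw [e1, one_mul] at h0
    refine hnz (l₀ (Finsupp.single j 1)) ?_ ?_ h0
    · rw [hl₀' _ hjM]; exact hlS _ hjM
    · rw [hl₀' _ hjM]
      exact hlam1
  · intro m _ hm
    rw [cf_nf, coeff_X, if_neg (fun h => hm h.symm), zero_mul]

end Pool.Agent.W443.DX
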