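import Pool.Agent.W443.DX.Fin
import Pool.Agent.W443.DX.Stm2

/-!
Second part of the project DX: endomorphisms of the first Weyl algebra which intertwine
automorphisms, one of them of infinite order.  Pairs are written as functions on `Fin 2`.
-/

set_option autoImplicit false

open MvPolynomial Pool.Agent.H88R2.DC

namespace Pool.Agent.W443.DX

/-- `a` is a Weyl pair (the images of `x, y` under an endomorphism). -/
def WP {R : Type} [CommRing R] (a : Fin 2 → MvPolynomial (Fin 2) R) : Prop :=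
  nf R (a 0) * nf R (a 1) - nf R (a 1) * nf R (a 0) = 1

/-- coordinates of the composition (first `b`, then `a`): `a(b(x_j))` -/
noncomputable def cmp {R : Type} [CommRing R] (a b : Fin 2 → MvPolynomial (Fin 2) R) :
    Fin 2 → MvPolynomial (Fin 2) R :=
  fun j => (nf R).symm (ev (nf R (a 0)) (nf R (a 1)) (b j))

/-- coordinates of the `m`-th iterate -/
noncomputable def itw {R : Type} [CommRing R] (a : Fin 2 → MvPolynomial (Fin 2) R) (m : ℕ) :
    Fin 2 → MvPolynomial (Fin 2) R :=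
  (cmp a)^[m] X

/-- commutative composition (first `b`, then `a`, as algebra endomorphisms) -/
noncomputable def cmc {R : Type} [CommRing R] (a b : Fin 2 → MvPolynomial (Fin 2) R) :
    Fin 2 → MvPolynomial (Fin 2) R :=
  fun j => aeval a (b j)

/-- commutative iterate -/
noncomputable def itc {R : Type} [CommRing R] (a : Fin 2 → MvPolynomial (Fin 2) R) (m : ℕ) :
    Fin 2 → MvPolynomial (Fin 2) R :=
  (cmc a)^[m] X

/-- `f` is the map of the centres belonging to the Weyl pair `a` -/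
def Cen {R : Type} [CommRing R] (p : ℕ) (a f : Fin 2 → MvPolynomial (Fin 2) R) : Prop :=
  ∀ j, nf R (a j) ^ p = nf R (expand p (f j))

/-- base change of pairs -/
noncomputable def mp {R S : Type} [CommRing R] [CommRing S] (σ : R →+* S)
    (a : Fin 2 → MvPolynomial (Fin 2) R) : Fin 2 → MvPolynomial (Fin 2) S :=
  fun j => MvPolynomial.map σ (a j)

/-- DX2-EVM: base change. -/
def S_EVM : Prop := ∀ (R S : Type) [CommRing R] [CommRing S] (σ : R →+* S)
  (a b : Fin 2 → MvPolynomial (Fin 2) R),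
  mp σ (cmp a b) = cmp (mp σ a) (mp σ b) ∧ (∀ m, mp σ (itw a m) = itw (mp σ a) m) ∧
  (WP a → WP (mp σ a)) ∧ (Function.Injective σ → WP (mp σ a) → WP a)

/-- DX2-CNC: the centre map of a composition; existence and uniqueness of centre maps. -/
def S_CNC : Prop := ∀ (p : ℕ) [Fact p.Prime] (k : Type) [Field k] [CharP k p]
  (a b f g f' : Fin 2 → MvPolynomial (Fin 2) k),
  (WP a → Cen p a f → Cen p b g → Cen p (cmp a b) (cmc f g)) ∧
  (WP a → Cen p a f → ∀ m, Cen p (itw a m) (itc f m)) ∧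
  (Cen p a f → Cen p a f' → f = f') ∧
  (WP a → ∃ h, Cen p a h)

/-- DX2-ORD: a Weyl pair whose centre map is the identity is the identity (over `ZMod p`). -/
def S_ORD : Prop := ∀ (p : ℕ) [Fact p.Prime] (a : Fin 2 → MvPolynomial (Fin 2) (ZMod p)),
  Cen p a X → a = X

/-- DX2-JCS: plane Keller maps intertwining automorphisms, the one of the target of infinite
order. -/
def S_JCS : Prop := ∀ (k : Type) [Field k] [CharZero k]
  (F T U S V : Fin 2 → MvPolynomial (Fin 2) k), Jac (F 0) (F 1) = 1 →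
  cmc T U = X → cmc U T = X → cmc S V = X → cmc V S = X → cmc F T = cmc S F →
  (∀ m, 1 ≤ m → itc T m ≠ X) → ∃ G : Fin 2 → MvPolynomial (Fin 2) k, cmc F G = X ∧ cmc G F = X

/-- DX2-ULT: uniform version in large characteristic. -/
def S_ULT2 : Prop := S_JCS → ∀ d : ℕ, ∃ D : ℕ, ∀ p : ℕ, D ≤ p → ∀ [Fact p.Prime]
  (F T U S V : Fin 2 → MvPolynomial (Fin 2) (ZMod p)),
  (∀ i j, degreeOf i (F j) ≤ d) → (∀ i j, degreeOf i (T j) ≤ d) → (∀ i j, degreeOf i (U j) ≤ d) →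
  (∀ i j, degreeOf i (S j) ≤ d) → (∀ i j, degreeOf i (V j) ≤ d) → Jac (F 0) (F 1) = 1 →
  cmc T U = X → cmc U T = X → cmc S V = X → cmc V S = X → cmc F T = cmc S F →
  (∀ m, 1 ≤ m → m ≤ D → itc T m ≠ X) →
  ∃ G : Fin 2 → MvPolynomial (Fin 2) (ZMod p), cmc F G = X ∧ cmc G F = X ∧
    ∀ i j, degreeOf i (G j) ≤ D

/-- DX2-MOD: the part modulo `p`. -/
def S_MOD : Prop := ∀ (d D : ℕ) (p : ℕ) [Fact p.Prime]
  (_ : ∀ (F T U S V : Fin 2 → MvPolynomial (Fin 2) (ZMod p)),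
    (∀ i j, degreeOf i (F j) ≤ d) → (∀ i j, degreeOf i (T j) ≤ d) →
    (∀ i j, degreeOf i (U j) ≤ d) → (∀ i j, degreeOf i (S j) ≤ d) →
    (∀ i j, degreeOf i (V j) ≤ d) → Jac (F 0) (F 1) = 1 →
    cmc T U = X → cmc U T = X → cmc S V = X → cmc V S = X → cmc F T = cmc S F →
    (∀ m, 1 ≤ m → m ≤ D → itc T m ≠ X) →
    ∃ G : Fin 2 → MvPolynomial (Fin 2) (ZMod p), cmc F G = X ∧ cmc G F = X ∧
      ∀ i j, degreeOf i (G j) ≤ D)
  (f : Fin 2 → MvPolynomial (Fin 2) (ZMod (p ^ 2)))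
  (F T U S V : Fin 2 → MvPolynomial (Fin 2) (ZMod p)), WP f →
  mp (ZMod.castHom (Dvd.intro_left p (by ring : p * p = p ^ 2)) (ZMod p)) f = F →
  WP T → WP U → WP S → WP V →
  (∀ i j, degreeOf i (F j) ≤ d) → (∀ i j, degreeOf i (T j) ≤ d) → (∀ i j, degreeOf i (U j) ≤ d) →
  (∀ i j, degreeOf i (S j) ≤ d) → (∀ i j, degreeOf i (V j) ≤ d) →
  cmp T U = X → cmp U T = X → cmp S V = X → cmp V S = X → cmp F T = cmp S F →
  (∀ m, 1 ≤ m → m ≤ D → itw T m ≠ X) →
  ∀ j : Fin 2, ∃ H : MvPolynomial (Fin 2) (ZMod p),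
    ev (nf (ZMod p) (F 0)) (nf (ZMod p) (F 1)) H = nf (ZMod p) (X j) ∧ ∀ i, degreeOf i H ≤ D

/-- DX2-GEN: the reduction to large characteristic in general form. -/
def S_GEN : Prop := ∀ (K : Type) [Field K] [CharZero K] (F : Fin 2 → MvPolynomial (Fin 2) K)
  (D : ℕ) (S₀ : Finset K), (∀ j, ∀ m ∈ (F j).support, coeff m (F j) ∈ S₀) →
  (∀ (p : ℕ) [Fact p.Prime], D ≤ p → ∀ (C₀ : Subring K) (σ : C₀ →+* ZMod (p ^ 2)),
    (∀ s ∈ S₀, ∃ h : s ∈ C₀, s ≠ 0 → IsUnit (σ ⟨s, h⟩)) →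
    ∀ F₀ : Fin 2 → MvPolynomial (Fin 2) C₀, mp C₀.subtype F₀ = F → ∀ j : Fin 2,
    ∃ H : MvPolynomial (Fin 2) (ZMod p),
      ev (nf (ZMod p) (mp (ZMod.castHom (Dvd.intro_left p (by ring : p * p = p ^ 2)) (ZMod p))
          (mp σ F₀) 0))
        (nf (ZMod p) (mp (ZMod.castHom (Dvd.intro_left p (by ring : p * p = p ^ 2)) (ZMod p))
          (mp σ F₀) 1)) H = nf (ZMod p) (X j) ∧ ∀ i, degreeOf i H ≤ D) →
  ∀ j : Fin 2, ∃ H : MvPolynomial (Fin 2) K, ev (nf K (F 0)) (nf K (F 1)) H = nf K (X j)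

/-- DX2-FIN: the theorem in coordinates. -/
def S_FIN2 : Prop := ∀ (K : Type) [Field K] [CharZero K]
  (F T U S V : Fin 2 → MvPolynomial (Fin 2) K), WP F → WP T → WP U → WP S → WP V →
  cmp T U = X → cmp U T = X → cmp S V = X → cmp V S = X → cmp F T = cmp S F →
  (∀ m, 1 ≤ m → itw T m ≠ X) →
  ∀ j : Fin 2, ∃ H : MvPolynomial (Fin 2) K, ev (nf K (F 0)) (nf K (F 1)) H = nf K (X j)

/-- DX2-AON: the theorem for `A1 K`. -/
def S_AON2 : Prop := ∀ (K : Type) [Field K] [CharZero K] (φ : A1 K →ₐ[K] A1 K)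
  (τ τ' : A1 K ≃ₐ[K] A1 K), (∀ a, φ (τ a) = τ' (φ a)) → (∀ m, 1 ≤ m → τ ^ m ≠ 1) →
  Function.Bijective φ

end Pool.Agent.W443.DX
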